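import Mathlib
import Pool.Agent.MWGX.StmtsB

/-!
# Row mwgx SPG: the special order is kept
-/

set_option autoImplicit false

namespace Pool.Agent.MWGX.H95

open Pool.Agent.Helper14_MV Pool.Agent.Helper2_MV
open Pool.Agent.MWK (pre)
open Pool.Agent.MWF (gaml)
open Pool.Agent.MWGN (nn Nm WC WT Tau Ns nl sg)
open Pool.Agent.MWGQ (pw Gn E0 A0 P0 bd kr krl Rs)
open Pool.Agent.MWGR (X It Kaba F1 Dm Ec Es Ea Al0 Rh FE)
open Pool.Agent.MWGX

theorem mem_tlN {ν : Nm} {τ : List ℕ} {m i j : ℕ} {c f : ℕ → ℕ} {z : ℕ} (hτ : Tau τ m)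
    (h : z ∈ tlN ν τ m i j c f) : z = ν.x ∨ z = ν.y ∨ z = ν.b ∨
      z ∈ (List.range (m + 1)).map ν.S ++ ((List.range (m + 1)).map ν.L ++
        (List.range m).map ν.C) := by
  unfold tlN at h
  simp only [List.mem_append, List.mem_cons, List.mem_replicate, List.mem_flatMap,
    List.mem_range] at h
  simp only [List.mem_append, List.mem_map, List.mem_range]
  rcases h with h | ⟨r, hr, h | h⟩ | h | h | h | ⟨r, hr, h | h⟩
  · exact Or.inl h.2
  · exact Or.inr (Or.inr (Or.inr (Or.inr (Or.inl ⟨r, by omega, h.symm⟩))))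
  · exact Or.inr (Or.inr (Or.inr (Or.inr (Or.inr ⟨r, by omega, h.2.symm⟩))))
  · exact Or.inr (Or.inr (Or.inr (Or.inr (Or.inl ⟨m, by omega, h.symm⟩))))
  · exact Or.inr (Or.inl h.2)
  · exact Or.inr (Or.inr (Or.inl h))
  · have := (hτ.2 r).1 hr
    exact Or.inr (Or.inr (Or.inr (Or.inl ⟨r, by omega, h.symm⟩)))
  · have := (hτ.2 r).1 hr
    exact Or.inr (Or.inr (Or.inr (Or.inr (Or.inl ⟨r, by omega, h.2.symm⟩))))

theorem cancel1 {n i : ℕ} (h : i + 1 ≡ 2 [MOD n]) : i ≡ 1 [MOD n] :=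
  Nat.ModEq.add_right_cancel' 1 h

theorem spg (hOXV : OxvStmt) (hWCV : MWGQ.WcvStmt) (hNOE : NoeStmt) (hXCG : XcgStmt)
    (hNOR : MWGQ.NorStmt) (hNOB : MWGQ.NobStmt) (hDST : MWGN.DstStmt) (hRNG : RngStmt) :
    SpgStmt := by
  intro n β δ hG hIt hDl hE0 hP0 hA0 ν e τ m nc hNs hTau hmn hnm he hKag w w' hr hWC hWT hRs
    hGE hLG h1
  by_contra h2
  obtain ⟨v1, v2, v3⟩ := hWCV n β hG hE0 hP0 hA0 ν τ m nc hNs hnm w w' hr
  have hWC' := v1 hWC
  have hWT' := v2 hWT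
  have hRs' := v3 hRs
  have hnd := hDST ν τ m nc hNs hTau hmn w hWC hWT
  have hea : e ≠ ν.a := by
    rintro rfl
    exact he (by simp [nl])
  have hex : e ≠ ν.x := by
    rintro rfl
    exact he (by simp [nl])
  have hey : e ≠ ν.y := by
    rintro rfl
    exact he (by simp [nl])
  have hox := (hOXV n β hG hE0 w w' hr).1
  have hea' : nn w' e ν.a = w'.count e := (hox.nc ν.a hWC.sa e hea).1 hGE.ea
  obtain ⟨i1, i2, i3, i, j, c, f, a1, a2, a3, a4, ⟨P, hP, hfP⟩, a5, -⟩ :=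
    hNOE ν e τ m nc hNs hTau hmn he w hWC hWT hGE.ea
  obtain ⟨i1', i2', i3', i', j', c', f', b1, b2, b3, b4, ⟨P', hP', hfP'⟩, -, b5⟩ :=
    hNOE ν e τ m nc hNs hTau hmn he w' hWC' hWT' hea'
  obtain ⟨a6, a7, a8⟩ := a5 h1
  obtain ⟨-, -, b8⟩ := b5 h2
  have hf := hr.filter (fun d => decide (d = e ∨ d ∈ nl ν m))
  rw [a8, b8] at hf
  -- different names
  have hnd2 := hnd
  unfold nl at hnd2
  rw [List.nodup_cons, List.nodup_cons, List.nodup_cons] at hnd2
  obtain ⟨nx, ny, na, -⟩ := hnd2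
  have hxy : ν.x ≠ ν.y := fun h => nx (by simp [h])
  have hxa : ν.x ≠ ν.a := fun h => nx (by simp [h])
  have hya : ν.y ≠ ν.a := fun h => ny (by simp [h])
  have hnd4 : [e, ν.x, ν.y, ν.a].Nodup := by
    simp [hex, hey, hea, hxy, hxa, hya]
  have hmnl : ∀ {i j : ℕ} {c f : ℕ → ℕ} {z : ℕ}, z ∈ tlN ν τ m i j c f → z ∈ nl ν m := by
    intro i j c f z hz
    unfold nl
    rcases mem_tlN hTau hz with h | h | h | h
    · simp [h]
    · simp [h]
    · simp [h]
    · exact List.mem_cons_of_mem _ (List.mem_cons_of_mem _ (List.mem_cons_of_mem _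
        (List.mem_cons_of_mem _ h)))
  have hna : ∀ {i j : ℕ} {c f : ℕ → ℕ}, ν.a ∉ tlN ν τ m i j c f := by
    intro i j c f hz
    rcases mem_tlN hTau hz with h | h | h | h
    · exact hxa h.symm
    · exact hya h.symm
    · exact na (by simp [h])
    · exact na (List.mem_cons_of_mem _ h)
  have hx : ∀ {i j : ℕ} {c f : ℕ → ℕ}, 1 ≤ i → ν.x ∈ tlN ν τ m i j c f := by
    intro i j c f hi
    unfold tlN
    exact List.mem_append_left _ (List.mem_replicate.2 ⟨by omega, rfl⟩)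
  have hy : ∀ {i j : ℕ} {c f : ℕ → ℕ}, 1 ≤ j → ν.y ∈ tlN ν τ m i j c f := by
    intro i j c f hj
    unfold tlN
    exact List.mem_append_right _ (List.mem_append_right _ (List.mem_cons_of_mem _
      (List.mem_append_left _ (List.mem_replicate.2 ⟨by omega, rfl⟩))))
  -- the gap
  have hi2 : i2 ≡ 1 [MOD δ] := by
    have h3 := hLG
    unfold LG at h3
    rw [← a7, ← a6] at h3
    exact Nat.ModEq.add_left_cancel' i1 h3
  have hX := hXCG n β δ hG hIt hDl e ν.x ν.y ν.a i1 i2 i3 i1' i2' i3'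
    (tlN ν τ m i j c f) (tlN ν τ m i' j' c' f') hnd4 (hx a1) (hy a2) (hx b1) (hy b2)
    (fun h => he (hmnl h)) hna (fun h => he (hmnl h)) hna hf 1 hi2
  -- the exponents
  have r1 := hNOR ν τ m hTau hnd w P i j c f hP hfP
  have r2 := hNOR ν τ m hTau hnd w' P' i' j' c' f' hP' hfP'
  have q1 := hNOB n β hG ν τ m hTau i j c f a1 (cancel1 (by rw [← r1.1]; exact hRs.x)) a2
    (cancel1 (by rw [← r1.2.1]; exact hRs.y))
    (fun r hr => ⟨a3 r hr, by rw [← r1.2.2.1 r hr]; exact hRs.c r (by omega)⟩)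
    (fun r hr => ⟨a4 r hr, cancel1 (by rw [← r1.2.2.2 r hr]; exact hRs.l r (by omega))⟩)
    (gL n 1 [e] [ν.x] [ν.y]) (by simp [gL]) (by simp [gL])
  have q2 := hNOB n β hG ν τ m hTau i' j' c' f' b1 (cancel1 (by rw [← r2.1]; exact hRs'.x)) b2
    (cancel1 (by rw [← r2.2.1]; exact hRs'.y))
    (fun r hr => ⟨b3 r hr, by rw [← r2.2.2.1 r hr]; exact hRs'.c r (by omega)⟩)
    (fun r hr => ⟨b4 r hr, cancel1 (by rw [← r2.2.2.2 r hr]; exact hRs'.l r (by omega))⟩)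
    (gR n 1 [e] [ν.x] [ν.y]) (by simp [gR]) (by simp [gR])
  have e1 : gL n 1 [e] [ν.x] [ν.y] ++ ν.a :: tlN ν τ m i j c f =
      List.replicate n e ++ ν.x :: (List.replicate (n + 1) e ++ ν.y :: (List.replicate n e ++
        ν.a :: tlN ν τ m i j c f)) := by
    unfold gL
    rw [pw_one, pw_one]
    simp only [List.append_assoc, List.cons_append, List.nil_append]
  have e2 : gR n 1 [e] [ν.x] [ν.y] ++ ν.a :: tlN ν τ m i' j' c' f' =
      List.replicate (n + 1) e ++ ν.y :: (List.replicate (n + (n - 1) * 1) e ++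
        ν.x :: (List.replicate (n + 1) e ++ ν.a :: tlN ν τ m i' j' c' f')) := by
    unfold gR
    rw [pw_one, pw_one]
    simp only [List.append_assoc, List.cons_append, List.nil_append]
  rw [← e1, ← e2] at hX
  refine hKag (hRNG n β ν e τ m hTau (List.nodup_cons.2 ⟨he, hnd⟩) ?_)
  exact β.trans (β.trans q1.symm hX) q2

end Pool.Agent.MWGX.H95
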